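import Mathlib

/-!
# The parameters
-/

namespace Pool.Agent.H99.LE

theorem cond_h {k P : ℕ} {r τ x : ℝ} (hk : 6 ≤ k) (hr : 0 ≤ r) (h1 : 100 * (Real.log k / k) ≤ τ)
    (h2 : 10000 * (r * Real.log k / k) ≤ τ ^ 2) (h3 : τ ≤ 1) (hP1 : 1 ≤ P)
    (hP : (P : ℝ) ≤ r / (4 * τ) + 5) (hx : τ / 2 ≤ x) :
    (8 * P + 1 : ℝ) * Real.log (Real.exp 1 / x) + Real.log (2 * Real.exp 1 * P * k) + 1 ≤
      4 * x * (k - 1) := by
  obtain ⟨K, hK⟩ : ∃ K : ℝ, K = (k : ℝ) := ⟨_, rfl⟩
  obtain ⟨Q, hQ⟩ : ∃ Q : ℝ, Q = (P : ℝ) := ⟨_, rfl⟩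
  have hK6 : 6 ≤ K := by
    rw [hK]
    exact_mod_cast hk
  have hQ1 : 1 ≤ Q := by
    rw [hQ]
    exact_mod_cast hP1
  rw [← hK] at h1 h2 ⊢
  rw [← hQ] at hP ⊢
  have hK0 : 0 < K := by linarith
  obtain ⟨l, hl⟩ : ∃ l : ℝ, l = Real.log K := ⟨_, rfl⟩
  rw [← hl] at h1 h2
  have hl2 : 1.38 ≤ l := by
    have e1 : Real.log 4 ≤ Real.log K := Real.log_le_log (by norm_num) (by linarith)
    have e2 : Real.log 4 = 2 * Real.log 2 := by
      rw [show (4 : ℝ) = 2 ^ 2 by norm_num, Real.log_pow]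
      norm_num
    have e3 := Real.log_two_gt_d9
    rw [hl]
    norm_num at e3 ⊢
    linarith
  have hlog2 : Real.log 2 ≤ 0.7 := by
    have := Real.log_two_lt_d9
    norm_num at this ⊢
    linarith
  have hl0 : 0 < l := by linarith
  have h1' : 100 * l ≤ τ * K := by
    have e1 : 100 * (l / K) * K = 100 * l := by
      field_simp
    have e2 := mul_le_mul_of_nonneg_right h1 hK0.le
    linarith
  have hτ : 0 < τ := by
    by_contra hcon
    rw [not_lt] at hcon
    have := mul_nonpos_of_nonpos_of_nonneg hcon hK0.le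
    linarith
  have h2' : 10000 * (r * l) ≤ τ ^ 2 * K := by
    have e1 : 10000 * (r * l / K) * K = 10000 * (r * l) := by
      field_simp
    have e2 := mul_le_mul_of_nonneg_right h2 hK0.le
    linarith
  have hx0 : 0 < x := by linarith
  have hrl : r * l / (4 * τ) ≤ τ * K / 40000 := by
    rw [div_le_iff₀ (by positivity)]
    have e1 : τ * K / 40000 * (4 * τ) = τ ^ 2 * K / 10000 := by ring
    rw [e1]
    linarith
  have hrr : r / (4 * τ) ≤ K / 40000 := by
    have e1 : r / (4 * τ) ≤ r * l / (4 * τ) := by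
      refine div_le_div_of_nonneg_right ?_ (by positivity)
      have := mul_le_mul_of_nonneg_left (by linarith : (1 : ℝ) ≤ l) hr
      linarith
    have e2 : τ * K / 40000 ≤ K / 40000 := by
      refine div_le_div_of_nonneg_right ?_ (by norm_num)
      have := mul_le_mul_of_nonneg_right h3 hK0.le
      linarith
    linarith
  have hQK : Q ≤ K := by linarith
  -- first term
  have hex : Real.exp 1 / x ≤ K := by
    rw [div_le_iff₀ hx0]
    have e1 := mul_le_mul_of_nonneg_left hx hK0.le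
    have e2 := Real.exp_one_lt_d9
    norm_num at e2
    have e3 : K * (τ / 2) = τ * K / 2 := by ring
    linarith
  have ht1 : Real.log (Real.exp 1 / x) ≤ l := by
    rw [hl]
    exact Real.log_le_log (by positivity) hex
  have ht1' : (8 * Q + 1) * Real.log (Real.exp 1 / x) ≤ 9 * Q * l := by
    have e1 := mul_le_mul_of_nonneg_left ht1 (by linarith : (0 : ℝ) ≤ 8 * Q + 1)
    have e2 := mul_le_mul_of_nonneg_right hQ1 hl0.le
    linarith
  -- second term
  have ht2 : Real.log (2 * Real.exp 1 * Q * K) ≤ 0.7 + 1 + l + l := by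
    have e0 : 0 < Real.exp 1 := Real.exp_pos 1
    rw [Real.log_mul (by positivity) (by positivity), Real.log_mul (by positivity) (by positivity),
      Real.log_mul (by norm_num) (by positivity), Real.log_exp, ← hl]
    have e1 : Real.log Q ≤ l := by
      rw [hl]
      exact Real.log_le_log (by linarith) hQK
    linarith
  have ht2' : Real.log (2 * Real.exp 1 * Q * K) + 1 ≤ 4 * Q * l := by
    have e2 := mul_le_mul_of_nonneg_right hQ1 hl0.le
    linarith
  have hsum : 13 * Q * l ≤ 0.7 * (τ * K) := by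
    have e1 := mul_le_mul_of_nonneg_right hP hl0.le
    have e2 : (r / (4 * τ) + 5) * l = r * l / (4 * τ) + 5 * l := by ring
    rw [e2] at e1
    have e3 : 0 < τ * K := by positivity
    linarith
  have hfin : 5 / 3 * (τ * K) ≤ 4 * x * (K - 1) := by
    have e1 : 2 * τ * (K - 1) ≤ 4 * x * (K - 1) :=
      mul_le_mul_of_nonneg_right (by linarith) (by linarith)
    have e2 : τ * 6 ≤ τ * K := mul_le_mul_of_nonneg_left hK6 hτ.le
    linarith
  have e3 : 0 < τ * K := by positivity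
  linarith

theorem large_n {k P : ℕ} {r τ : ℝ} (hk : 1 ≤ k) (hτ : 0 < τ) (hτ2 : 24 * τ ≤ 1) (hr : 0 ≤ r)
    (hP : r / (4 * τ) + 4 ≤ P) : ∃ n₀ : ℕ, ∀ n : ℕ, n₀ ≤ n →
      3 ≤ ⌊τ * n⌋₊ ∧ 24 * ⌊τ * n⌋₊ ≤ n ∧ τ * n / 2 ≤ ⌊τ * n⌋₊ ∧
      ⌊(1 + r) * n⌋₊ < (n - 16 * ⌊τ * n⌋₊) + (P - 1) * (8 * ⌊τ * n⌋₊) ∧
      ⌊τ / (2 * k) * n⌋₊ * k ≤ ⌊τ * n⌋₊ := by
  refine ⟨⌈4 / τ⌉₊, fun n hn => ?_⟩
  have hn1 : 4 / τ ≤ (n : ℝ) := (Nat.le_ceil _).trans (by exact_mod_cast hn)
  have hτn : 4 ≤ τ * n := by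
    rw [div_le_iff₀ hτ] at hn1
    linarith
  have hn0 : (0 : ℝ) ≤ n := Nat.cast_nonneg n
  have ht1 : (⌊τ * n⌋₊ : ℝ) ≤ τ * n := Nat.floor_le (by positivity)
  have ht2 : τ * n < (⌊τ * n⌋₊ : ℝ) + 1 := Nat.lt_floor_add_one _
  have h24 : 24 * ⌊τ * n⌋₊ ≤ n := by
    have : (24 : ℝ) * (⌊τ * n⌋₊ : ℝ) ≤ n := by
      have h1 : 24 * τ * n ≤ 1 * n := mul_le_mul_of_nonneg_right hτ2 hn0
      linarith
    exact_mod_cast this
  have hhalf : τ * n / 2 ≤ (⌊τ * n⌋₊ : ℝ) := by linarith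
  have hP2 : (4 : ℝ) ≤ P := by
    have : 0 ≤ r / (4 * τ) := by positivity
    linarith
  have hP1 : 1 ≤ P := by
    have : (1 : ℝ) ≤ P := by linarith
    exact_mod_cast this
  refine ⟨Nat.le_floor (by push_cast; linarith), h24, hhalf, ?_, ?_⟩
  · have h8 : 16 * ⌊τ * n⌋₊ ≤ n := by omega
    have hreal : (⌊(1 + r) * n⌋₊ : ℝ) <
        (((n - 16 * ⌊τ * n⌋₊) + (P - 1) * (8 * ⌊τ * n⌋₊) : ℕ) : ℝ) := by
      rw [Nat.cast_add, Nat.cast_sub h8, Nat.cast_mul (P - 1), Nat.cast_sub hP1]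
      push_cast
      have h1 : (⌊(1 + r) * n⌋₊ : ℝ) ≤ (1 + r) * n := Nat.floor_le (by positivity)
      have h2 : 2 * r / τ + 8 ≤ 8 * (P : ℝ) - 24 := by
        have e : 2 * r / τ = 8 * (r / (4 * τ)) := by
          field_simp
          ring
        rw [e]
        linarith
      have h3 : 0 ≤ 2 * r / τ + 8 := by positivity
      have h4 : (2 * r / τ + 8) * (τ * n / 2) ≤ (8 * (P : ℝ) - 24) * (⌊τ * n⌋₊ : ℝ) :=
        mul_le_mul h2 hhalf (by positivity) (h3.trans h2)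
      have h5 : (2 * r / τ + 8) * (τ * n / 2) = r * n + 4 * (τ * n) := by
        field_simp
        ring
      nlinarith
    exact_mod_cast hreal
  · have hkr : (1 : ℝ) ≤ k := by exact_mod_cast hk
    have h1 : (⌊τ / (2 * k) * n⌋₊ : ℝ) ≤ τ / (2 * k) * n := Nat.floor_le (by positivity)
    have h2 : (⌊τ / (2 * k) * n⌋₊ : ℝ) * k ≤ (⌊τ * n⌋₊ : ℝ) := by
      calc (⌊τ / (2 * k) * n⌋₊ : ℝ) * k ≤ (τ / (2 * k) * n) * k :=
            mul_le_mul_of_nonneg_right h1 (by linarith)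
        _ = τ * n / 2 := by field_simp
        _ ≤ _ := hhalf
    exact_mod_cast h2

/-- The final exponent. -/
theorem final_exp {n t : ℕ} {ε : ℝ} (hε0 : 0 < ε) (hε1 : ε ≤ 1) (ht : 1 ≤ t)
    (ht1 : ε / (100 * (1 - Real.log ε)) * n / 2 ≤ t)
    (ht2 : (t : ℝ) ≤ ε / (100 * (1 - Real.log ε)) * n) :
    1 + 24 * t + t * Real.log (Real.exp 1 * n / t) / Real.log 2 ≤ ε * n := by
  have ht' : (1 : ℝ) ≤ (t : ℝ) := by exact_mod_cast ht
  have ht0 : (0 : ℝ) < t := by linarith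
  have he : Real.exp 1 < 2.7182818286 := Real.exp_one_lt_d9
  have hl2 : 0.6931471803 < Real.log 2 := Real.log_two_gt_d9
  have hl20 : 0 < Real.log 2 := by linarith
  have hlogε : Real.log ε ≤ 0 := Real.log_nonpos hε0.le hε1
  obtain ⟨L, hL⟩ : ∃ L : ℝ, L = 1 - Real.log ε := ⟨_, rfl⟩
  rw [← hL] at ht1 ht2
  have hL1 : 1 ≤ L := by rw [hL]; linarith
  have hL0 : 0 < L := by linarith
  have hn0 : (0 : ℝ) ≤ (n : ℝ) := Nat.cast_nonneg n
  have hnpos : (0 : ℝ) < n := by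
    rcases hn0.lt_or_eq with h | h
    · exact h
    · rw [← h, mul_zero] at ht2
      linarith
  -- `e n / t ≤ 544 L / ε`
  have h1 : Real.exp 1 * n / t ≤ 544 * (L / ε) := by
    rw [div_le_iff₀ ht0]
    have e1 : 544 * (L / ε) * (ε / (100 * L) * n / 2) ≤ 544 * (L / ε) * t :=
      mul_le_mul_of_nonneg_left ht1 (by positivity)
    have e2 : 544 * (L / ε) * (ε / (100 * L) * n / 2) = 2.72 * n := by
      field_simp
      norm_num
    rw [e2] at e1
    refine le_trans ?_ e1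
    exact mul_le_mul_of_nonneg_right (by linarith) hn0
  have h2 : Real.log (Real.exp 1 * n / t) ≤ 6.5 + 2 * L - 2 := by
    have e1 : Real.log (Real.exp 1 * n / t) ≤ Real.log (544 * (L / ε)) :=
      Real.log_le_log (by positivity) h1
    have e2 : Real.log (544 * (L / ε)) = Real.log 544 + (Real.log L - Real.log ε) := by
      rw [Real.log_mul (by norm_num) (by positivity), Real.log_div (by positivity) (by positivity)]
    have e3 : Real.log L ≤ L - 1 := Real.log_le_sub_one_of_pos hL0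
    have e4 : Real.log 544 ≤ 6.5 := by
      have e5 : Real.log 544 ≤ Real.log (2 ^ (9 : ℕ) * 2 ^ (9 : ℕ) / 481) := by
        apply Real.log_le_log (by norm_num)
        norm_num
      have e6 : Real.log 544 ≤ Real.log ((2 : ℝ) ^ (10 : ℕ)) - Real.log (1024 / 544) := by
        rw [← Real.log_div (by norm_num) (by norm_num)]
        apply Real.log_le_log (by norm_num)
        norm_num
      have e7 : Real.log ((2 : ℝ) ^ (10 : ℕ)) = 10 * Real.log 2 := by
        rw [Real.log_pow]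
        norm_num
      have e8 : (1 - (1024 / 544 : ℝ)⁻¹) ≤ Real.log (1024 / 544) :=
        Real.one_sub_inv_le_log_of_pos (by norm_num)
      have e9 := Real.log_two_lt_d9
      rw [e7] at e6
      norm_num at e8 e9 ⊢
      linarith
    linarith [hL]
  have h3 : Real.log (Real.exp 1 * n / t) ≤ 6.5 * L := by linarith
  have h4 : t * Real.log (Real.exp 1 * n / t) / Real.log 2 ≤ 9.5 * (t * L) := by
    rw [div_le_iff₀ hl20]
    have e1 : t * Real.log (Real.exp 1 * n / t) ≤ t * (6.5 * L) :=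
      mul_le_mul_of_nonneg_left h3 ht0.le
    have e2 : 0 ≤ (t : ℝ) * L := by positivity
    nlinarith
  have h5 : (t : ℝ) ≤ t * L := by
    have := mul_le_mul_of_nonneg_left hL1 ht0.le
    linarith
  have h6 : (t : ℝ) * L ≤ ε * n / 100 := by
    have e1 := mul_le_mul_of_nonneg_right ht2 hL0.le
    have e2 : ε / (100 * L) * n * L = ε * n / 100 := by
      field_simp
    rw [e2] at e1
    exact e1
  have h7 : 0 ≤ ε * n := by positivity
  linarith

/-- The choice of `τ`. -/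
theorem choose_tau {k : ℕ} {r ε : ℝ} (hk : 3 ≤ k) (hr : 0 ≤ r) (hε1 : ε ≤ 1)
    (hε : 10000 * (Real.log k ^ 2 / k + √(r * Real.log k ^ 3 / k)) ≤ ε) :
    0 < ε ∧ 6 ≤ k ∧ 100 * (Real.log k / k) ≤ ε / (100 * (1 - Real.log ε)) ∧
      10000 * (r * Real.log k / k) ≤ (ε / (100 * (1 - Real.log ε))) ^ 2 ∧
      24 * (ε / (100 * (1 - Real.log ε))) ≤ 1 := by
  have hk0 : (0 : ℝ) < k := by
    have : 0 < k := by omega
    exact_mod_cast this
  have hlog : 1 ≤ Real.log k := by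
    have h3 : (3 : ℝ) ≤ k := by exact_mod_cast hk
    rw [← Real.log_exp 1]
    refine Real.log_le_log (Real.exp_pos 1) ?_
    have := Real.exp_one_lt_d9
    linarith
  have hlog0 : 0 < Real.log k := by linarith
  obtain ⟨l, hl⟩ : ∃ l : ℝ, l = Real.log k := ⟨_, rfl⟩
  rw [← hl] at hε hlog hlog0 ⊢
  have hs0 : 0 ≤ √(r * l ^ 3 / k) := Real.sqrt_nonneg _
  have h1 : 10000 * (l ^ 2 / k) ≤ ε := by linarith
  have hl2 : 0 < l ^ 2 / (k : ℝ) := by positivity
  have hε0 : 0 < ε := by linarith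
  have hlogε : Real.log ε ≤ 0 := Real.log_nonpos hε0.le hε1
  obtain ⟨L, hL⟩ : ∃ L : ℝ, L = 1 - Real.log ε := ⟨_, rfl⟩
  rw [← hL]
  have hL1 : 1 ≤ L := by rw [hL]; linarith
  have hL0 : 0 < L := by linarith
  -- `L ≤ log k`
  have hkε : 10000 ≤ ε * k := by
    have e1 : 10000 * (l ^ 2 / k) * k = 10000 * l ^ 2 := by field_simp
    have e2 := mul_le_mul_of_nonneg_right h1 hk0.le
    nlinarith
  have hLl : L ≤ l := by
    have e1 : Real.log 10000 ≤ Real.log (ε * k) := Real.log_le_log (by norm_num) hkε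
    rw [Real.log_mul hε0.ne' hk0.ne', ← hl] at e1
    have e2 : 1 ≤ Real.log 10000 := by
      rw [Real.le_log_iff_exp_le (by norm_num)]
      have := Real.exp_one_lt_d9
      linarith
    rw [hL]
    linarith
  have hτ : ε / (100 * l) ≤ ε / (100 * L) := by
    apply div_le_div_of_nonneg_left hε0.le (by positivity)
    linarith
  refine ⟨hε0, ?_, ?_, ?_, ?_⟩
  · by_contra hlt
    push Not at hlt
    have h6 : (k : ℝ) ≤ 6 := by
      have : k ≤ 6 := by omega
      exact_mod_cast this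
    nlinarith
  · refine le_trans ?_ hτ
    rw [le_div_iff₀ (by positivity)]
    have e1 : 100 * (l / k) * (100 * l) = 10000 * (l ^ 2 / k) := by ring
    rw [e1]
    exact h1
  · have e1 : 0 ≤ ε / (100 * l) := by positivity
    have e2 : (ε / (100 * l)) ^ 2 ≤ (ε / (100 * L)) ^ 2 := by gcongr
    refine le_trans ?_ e2
    have e3 : 10000 * √(r * l ^ 3 / k) ≤ ε := by
      have : 0 ≤ 10000 * (l ^ 2 / (k : ℝ)) := by positivity
      linarith
    have e4 : (10000 * √(r * l ^ 3 / k)) ^ 2 ≤ ε ^ 2 := by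
      gcongr
    rw [mul_pow, Real.sq_sqrt (by positivity)] at e4
    rw [div_pow, le_div_iff₀ (by positivity)]
    have e5 : 10000 * (r * l / k) * (100 * l) ^ 2 = 10000 ^ 2 * (r * l ^ 3 / k) := by ring
    rw [e5]
    exact e4
  · rw [← mul_div_assoc, div_le_one (by positivity)]
    nlinarith

end Pool.Agent.H99.LE
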