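import Pool.Agent.H99.LE.Wk
import Pool.Agent.H99.LE.Num
import Pool.Agent.H13.LD.Bal
import Pool.Agent.H13.LD.Tu
import Pool.Agent.H13.LD.Su
import Pool.Agent.H13.LD.Tn
import Pool.Agent.H13.LD.Sn
import Pool.Agent.H13.LD.Us
import Pool.Agent.H13.LD.Av
import Pool.Agent.H13.LD.Pc
import Pool.Agent.H13.LD.Lm

/-!
# Strong exponential time hypothesis for resolution of linear depth, with exceptional variables
-/

namespace Pool.Agent.H99.LE

open Finset Pool.Agent.H13.LD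

open Classical in
theorem card_typ_le {n : ℕ} {F : CNF n} {P q₀ t k μ y D : ℕ} {w : ℝ}
    (hS : Spread F (2 * t)) (hk : ∀ C ∈ F, C.card ≤ k) (hw : ⌊w⌋₊ * k ≤ t) (ht : 1 ≤ t)
    (hP : 1 ≤ P) (hμ : μ ≤ q₀) (R : Refutation F w)
    (hR : ∀ vs i, IsPath R vs i → ∃ Y : Finset (Fin n), Y.card ≤ y ∧ outside Y vs ≤ D)
    (hD : D < (q₀ - y) + (P - 1) * (q₀ - μ - y)) :
    (univ.filter fun a : Fin n → Bool => Typ F P q₀ t a).card ≤
      R.size * (2 ^ (n - μ) * ∑ i ∈ range (t + 1), n.choose i) := by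
  let good : Finset (Fin R.size) := univ.filter fun i => μ ≤ (R.line i).card ∧
    ∀ l ∈ R.line i, ∀ l' ∈ R.line i, l.1 = l'.1 → l = l'
  let B : Fin R.size → Finset (Fin n → Bool) := fun i =>
    univ.filter fun a : Fin n → Bool => ((R.line i).filter fun l => a l.1 = l.2).card ≤ t
  have hsub : (univ.filter fun a : Fin n → Bool => Typ F P q₀ t a) ⊆ good.biUnion B := by
    intro a ha
    have hT : Typ F P q₀ t a := (Finset.mem_filter.mp ha).2
    obtain ⟨i, h1, h2, h3⟩ := walk hT hS hk hw ht hP hμ R hR hD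
    refine Finset.mem_biUnion.mpr ⟨i, ?_, ?_⟩
    · exact Finset.mem_filter.mpr ⟨Finset.mem_univ _, h1, h3⟩
    · refine Finset.mem_filter.mpr ⟨Finset.mem_univ _, ?_⟩
      convert h2
  have hB : ∀ i ∈ good, (B i).card ≤ 2 ^ (n - μ) * ∑ i ∈ range (t + 1), n.choose i := by
    intro i hi
    obtain ⟨h1, h3⟩ := (Finset.mem_filter.mp hi).2
    have := card_ball (R.line i) t μ h1 h3
    convert this
  calc (univ.filter fun a : Fin n → Bool => Typ F P q₀ t a).card
      ≤ (good.biUnion B).card := Finset.card_le_card hsub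
    _ ≤ ∑ i ∈ good, (B i).card := Finset.card_biUnion_le
    _ ≤ good.card • (2 ^ (n - μ) * ∑ i ∈ range (t + 1), n.choose i) :=
        Finset.sum_le_card_nsmul _ _ _ hB
    _ = good.card * (2 ^ (n - μ) * ∑ i ∈ range (t + 1), n.choose i) := by rw [smul_eq_mul]
    _ ≤ R.size * (2 ^ (n - μ) * ∑ i ∈ range (t + 1), n.choose i) := by
        refine Nat.mul_le_mul_right _ ?_
        calc good.card ≤ (univ : Finset (Fin R.size)).card :=
              Finset.card_le_card (Finset.filter_subset _ _)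
          _ = R.size := by rw [Finset.card_univ, Fintype.card_fin]

theorem cnf_card {n m k : ℕ} (f : Fin m → Fin k → Lit n) : ∀ C ∈ cnf f, C.card ≤ k := by
  intro C hC
  obtain ⟨i, -, rfl⟩ := Finset.mem_image.1 hC
  exact Finset.card_image_le.trans (by simp)

theorem card_all (n k m : ℕ) :
    Fintype.card (Fin m → Fin k → Lit n) = ((2 * n) ^ k) ^ m := by
  simp [Fintype.card_prod, mul_comm]

/-- The lower bound for one formula. -/
theorem size_ge {n k P t D y : ℕ} {F : CNF n} {ε w : ℝ} (hε0 : 0 < ε) (hε1 : ε ≤ 1)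
    (hS : Spread F (2 * t)) (hk : ∀ C ∈ F, C.card ≤ k) (hw : ⌊w⌋₊ * k ≤ t) (ht : 1 ≤ t)
    (hP : 1 ≤ P) (hn : 24 * t ≤ n) (hy : y ≤ 8 * t)
    (ht1 : ε / (100 * (1 - Real.log ε)) * n / 2 ≤ t)
    (ht2 : (t : ℝ) ≤ ε / (100 * (1 - Real.log ε)) * n)
    (hD : D < (n - 16 * t) + (P - 1) * (8 * t)) (R : Refutation F w)
    (hR : ∀ vs i, IsPath R vs i → ∃ Y : Finset (Fin n), Y.card ≤ y ∧ outside Y vs ≤ D)
    (hT : ¬ 2 * (by classical exact (univ.filter fun a : Fin n → Bool => Typ F P (n - 8 * t) t a).card) <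
      Fintype.card (Fin n → Bool)) :
    (2 : ℝ) ^ ((1 - ε) * n) ≤ R.size := by
  classical
  have e0 : (P - 1) * (8 * t) ≤ (P - 1) * ((n - 8 * t) - (n - 24 * t) - y) :=
    Nat.mul_le_mul_left _ (by omega)
  have hD' : D < ((n - 8 * t) - y) + (P - 1) * ((n - 8 * t) - (n - 24 * t) - y) := by omega
  have h2 := card_typ_le hS hk hw ht hP (by omega : n - 24 * t ≤ n - 8 * t) R hR hD'
  have e2 : n - (n - 24 * t) = 24 * t := by omega
  rw [e2] at h2
  have h3 : Fintype.card (Fin n → Bool) ≤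
      2 * (R.size * (2 ^ (24 * t) * ∑ i ∈ range (t + 1), n.choose i)) := by
    refine (not_lt.1 hT).trans ?_
    refine Nat.mul_le_mul_left 2 ?_
    convert h2
  have h4 : Fintype.card (Fin n → Bool) = 2 ^ n := by simp
  rw [h4] at h3
  have h5 : ((2 : ℝ) ^ n) ≤ 2 * (R.size * (2 ^ (24 * t) *
      Real.exp (t * Real.log (Real.exp 1 * n / t)))) := by
    have h6 : ((2 ^ n : ℕ) : ℝ) ≤
        ((2 * (R.size * (2 ^ (24 * t) * ∑ i ∈ range (t + 1), n.choose i)) : ℕ) : ℝ) := by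
      exact_mod_cast h3
    push_cast at h6
    refine h6.trans ?_
    have h7 := sum_choose_le ht (by omega : t ≤ n)
    push_cast at h7
    gcongr
  have h8 := final_exp hε0 hε1 ht ht1 ht2
  have hl2 : 0 < Real.log 2 := Real.log_pos (by norm_num)
  have e3 : Real.exp (t * Real.log (Real.exp 1 * n / t)) =
      (2 : ℝ) ^ (t * Real.log (Real.exp 1 * n / t) / Real.log 2) := by
    rw [Real.rpow_def_of_pos (by norm_num)]
    congr 1
    field_simp
  rw [e3] at h5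
  have e4 : (2 : ℝ) * (R.size * (2 ^ (24 * t) *
      (2 : ℝ) ^ (t * Real.log (Real.exp 1 * n / t) / Real.log 2))) =
      R.size * (2 : ℝ) ^ (1 + 24 * t + t * Real.log (Real.exp 1 * n / t) / Real.log 2) := by
    rw [Real.rpow_add (by norm_num), Real.rpow_add (by norm_num), Real.rpow_one]
    have : (2 : ℝ) ^ (24 * (t : ℝ)) = 2 ^ (24 * t) := by
      rw [← Real.rpow_natCast]; push_cast; rfl
    rw [this]; ring
  rw [e4] at h5
  have h9 : (2 : ℝ) ^ (n : ℝ) ≤ R.size * (2 : ℝ) ^ (ε * n) := by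
    rw [Real.rpow_natCast]
    refine h5.trans ?_
    exact mul_le_mul_of_nonneg_left
      (Real.rpow_le_rpow_of_exponent_le (by norm_num) h8) (by positivity)
  have e5 : (1 - ε) * (n : ℝ) = n - ε * n := by ring
  rw [e5, Real.rpow_sub (by norm_num), div_le_iff₀ (by positivity)]
  exact h9

open Classical in
theorem main : ∃ K : ℝ, 0 < K ∧ ∀ k : ℕ, 3 ≤ k → ∀ r ε : ℝ, 0 ≤ r →
    K * (Real.log k ^ 2 / k + √(r * Real.log k ^ 3 / k)) ≤ ε → ε ≤ 1 → ∃ δ : ℝ, 0 < δ ∧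
    ∀ η : ℝ, 0 < η → ∃ n₀ : ℕ, ∀ n ≥ n₀,
      ((univ.filter fun f : Fin (2 ^ k * n) → Fin k → Lit n =>
        ¬ Hard (cnf f) (δ * n) ((1 + r) * n) (ε / (K * (1 - Real.log ε)) * n)
          ((2 : ℝ) ^ ((1 - ε) * n))).card : ℝ) ≤
      η * Fintype.card (Fin (2 ^ k * n) → Fin k → Lit n) := by
  refine ⟨10000, by norm_num, fun k hk r ε hr hε hε1 => ?_⟩
  obtain ⟨hε0, hk6, hτ1, hτ2, hτ24⟩ := choose_tau hk hr hε1 hε
  have hk0 : (0 : ℝ) < k := by
    have : 0 < k := by omega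
    exact_mod_cast this
  have hlog : 0 < Real.log k := by
    apply Real.log_pos
    have : (3 : ℝ) ≤ k := by exact_mod_cast hk
    linarith
  have hlogε : Real.log ε ≤ 0 := Real.log_nonpos hε0.le hε1
  obtain ⟨τ, hτdef⟩ : ∃ τ : ℝ, τ = ε / (100 * (1 - Real.log ε)) := ⟨_, rfl⟩
  have hτpos : 0 < τ := by
    rw [hτdef]
    apply div_pos hε0
    linarith
  rw [← hτdef] at hτ1 hτ2 hτ24
  have hτle1 : τ ≤ 1 := by linarith
  obtain ⟨P, hPdef⟩ : ∃ P : ℕ, P = ⌈r / (4 * τ)⌉₊ + 4 := ⟨_, rfl⟩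
  have hP1 : 1 ≤ P := by omega
  have hPlow : r / (4 * τ) + 4 ≤ P := by
    rw [hPdef]; push_cast
    have := Nat.le_ceil (r / (4 * τ))
    linarith
  have hPup : (P : ℝ) ≤ r / (4 * τ) + 5 := by
    rw [hPdef]; push_cast
    have := (Nat.ceil_lt_add_one (show 0 ≤ r / (4 * τ) by positivity)).le
    linarith
  refine ⟨τ / (2 * k), by positivity, fun η hη => ?_⟩
  obtain ⟨n₁, hn₁⟩ := large_n (k := k) (by omega) hτpos hτ24 hr hPlow
  obtain ⟨n₂, hn₂⟩ := lim_bounds hτpos hη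
  refine ⟨max (max n₁ n₂) 1, fun n hn => ?_⟩
  have hnn1 : n₁ ≤ n := le_trans (le_trans (le_max_left _ _) (le_max_left _ _)) hn
  have hnn2 : n₂ ≤ n := le_trans (le_trans (le_max_right _ _) (le_max_left _ _)) hn
  have hn1 : 1 ≤ n := le_trans (le_max_right _ _) hn
  obtain ⟨g1, g2, g3, g4, g5⟩ := hn₁ n hnn1
  have g6 := hn₂ n hnn2
  obtain ⟨t, htdef⟩ : ∃ t : ℕ, t = ⌊τ * n⌋₊ := ⟨_, rfl⟩
  rw [← htdef] at g1 g2 g3 g4 g5 g6
  have ht1 : 1 ≤ t := by omega
  have ht2 : (t : ℝ) ≤ τ * n := by rw [htdef]; exact Nat.floor_le (by positivity)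
  have hn0 : (0 : ℝ) < n := by exact_mod_cast hn1
  have ht0 : (0 : ℝ) < t := by exact_mod_cast ht1
  -- the union bounds
  have hx : τ / 2 ≤ (t : ℝ) / n := by
    rw [le_div_iff₀ hn0]; linarith
  have hcond := cond_h hk6 hr hτ1 hτ2 hτle1 hP1 hPup hx
  have e1 : Real.exp 1 / ((t : ℝ) / n) = Real.exp 1 * n / t := by field_simp
  rw [e1] at hcond
  have hT := typ_sum_le (by omega : 2 ≤ k) ht1 hP1 (by omega : 8 * t ≤ n) hcond
  have hTa : ∀ a : Fin n → Bool, ((univ.filter fun f : Fin (2 ^ k * n) → Fin k → Lit n =>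
      ¬ Typ (cnf f) P (n - 8 * t) t a).card : ℝ) ≤
      (t + 1) * Real.exp (-t) * (((2 * n) ^ k) ^ (2 ^ k * n) : ℕ) := by
    intro a
    refine le_trans ?_ hT
    exact_mod_cast card_not_typ_le (Nat.sub_le _ _) hP1 a
  have hAv := averaging (fun (f : Fin (2 ^ k * n) → Fin k → Lit n) (a : Fin n → Bool) =>
    Typ (cnf f) P (n - 8 * t) t a) _ hTa
  have hSn := spread_sum_le (s := 2 * t) hk6 hn1 (by omega)
  have hSu : ((univ.filter fun f : Fin (2 ^ k * n) → Fin k → Lit n =>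
      ¬ Spread (cnf f) (2 * t)).card : ℝ) ≤ 1 / n * (((2 * n) ^ k) ^ (2 ^ k * n) : ℕ) := by
    refine le_trans ?_ hSn
    exact_mod_cast card_not_spread_le (by omega : 1 ≤ k)
  have hUs := card_sat_le n k
  -- the exceptional variables
  have hy : ε / (10000 * (1 - Real.log ε)) * n ≤ ((8 * t : ℕ) : ℝ) := by
    have e1 : ε / (10000 * (1 - Real.log ε)) = τ / 100 := by
      rw [hτdef]
      have : (1 - Real.log ε) ≠ 0 := by linarith
      field_simp
      norm_num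
    rw [e1]
    push_cast
    have : 0 < τ * n := by positivity
    linarith
  -- the bad formulas
  have hsub : (univ.filter fun f : Fin (2 ^ k * n) → Fin k → Lit n =>
      ¬ Hard (cnf f) (τ / (2 * k) * n) ((1 + r) * n) (ε / (10000 * (1 - Real.log ε)) * n)
        ((2 : ℝ) ^ ((1 - ε) * n))) ⊆
      (univ.filter fun f : Fin (2 ^ k * n) → Fin k → Lit n =>
        2 * (univ.filter fun a => Typ (cnf f) P (n - 8 * t) t a).card <
          Fintype.card (Fin n → Bool)) ∪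
      (univ.filter fun f : Fin (2 ^ k * n) → Fin k → Lit n => ¬ Spread (cnf f) (2 * t)) ∪
      (univ.filter fun f : Fin (2 ^ k * n) → Fin k → Lit n => ∃ a, Sat (cnf f) a) := by
    intro f hf
    simp only [Finset.mem_filter, Finset.mem_univ, true_and, Finset.mem_union] at hf ⊢
    by_contra hcon
    push Not at hcon
    obtain ⟨⟨c1, c2⟩, c3⟩ := hcon
    refine hf ⟨fun ⟨a, ha⟩ => c3 a ha, fun R hR => ?_⟩
    have hR' : ∀ vs i, IsPath R vs i → ∃ Y : Finset (Fin n), Y.card ≤ 8 * t ∧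
        outside Y vs ≤ ⌊(1 + r) * n⌋₊ := by
      intro vs i hvs
      obtain ⟨Y, hY1, hY2⟩ := hR vs i hvs
      refine ⟨Y, ?_, Nat.le_floor hY2⟩
      exact_mod_cast hY1.trans hy
    refine size_ge hε0 hε1 c2 (cnf_card f) g5 ht1 hP1 g2 le_rfl (hτdef ▸ g3) (hτdef ▸ ht2) g4 R hR' ?_
    rw [not_lt]
    convert c1
  have hcard := Finset.card_le_card hsub
  have hcard2 := hcard.trans ((Finset.card_union_le _ _).trans
    (Nat.add_le_add_right (Finset.card_union_le _ _) _))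
  refine le_trans (Nat.cast_le.2 hcard2) ?_
  push_cast
  refine (add_le_add (add_le_add hAv hSu) hUs).trans ?_
  rw [card_all]
  have h9 : (0 : ℝ) ≤ (((2 * n) ^ k) ^ (2 ^ k * n) : ℕ) := by positivity
  have h10 := mul_le_mul_of_nonneg_right g6 h9
  refine le_trans (le_of_eq ?_) h10
  ring

end Pool.Agent.H99.LE
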