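import Pool.Agent.H13.LD.Defs

/-!
# Resolution refutations of random formulas: definitions

`Lit`, `Clause`, `CNF`, `Sat`, `ClauseSat`, `cnf` and `Implied` are in `Pool.Agent.H13.LD.Defs`.
-/

namespace Pool.Agent.H99.LE

open Finset Pool.Agent.H13.LD

/-- A resolution refutation of `F`: a directed acyclic graph of clauses. A clause either follows from
at most `w` clauses of `F`, or it is derived by resolution on a variable `x` (and weakening) from the
two earlier clauses `line (c true)`, in which `x` may occur negatively, and `line (c false)`, in which
`x` may occur positively. The empty clause `line root` is derived. -/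
structure Refutation {n : ℕ} (F : CNF n) (w : ℝ) where
  /-- the number of clauses of the refutation -/
  size : ℕ
  /-- the clauses -/
  line : Fin size → Clause n
  /-- `none` if the clause is not derived by resolution -/
  node : Fin size → Option (Fin n × (Bool → Fin size))
  /-- the last clause -/
  root : Fin size
  root_line : line root = ∅
  leaf : ∀ i, node i = none → Implied F ⌊w⌋₊ (line i)
  inner : ∀ i x c, node i = some (x, c) → ∀ β, line (c β) ⊆ insert (x, !β) (line i) ∧ c β < i

/-- Some path of `R`, from the empty clause through premises, ends in the clause number `i`, and `vs`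
lists the variables which are resolved on along this path (one for each step, the last one first). -/
inductive IsPath {n : ℕ} {F : CNF n} {w : ℝ} (R : Refutation F w) :
    List (Fin n) → Fin R.size → Prop
  | start : IsPath R [] R.root
  | step {vs : List (Fin n)} {i : Fin R.size} {x : Fin n} {c : Bool → Fin R.size} (β : Bool) :
      IsPath R vs i → R.node i = some (x, c) → IsPath R (x :: vs) (c β)

/-- The number of steps of a path which resolve on a variable outside `Y`. -/
def outside {n : ℕ} (Y : Finset (Fin n)) (vs : List (Fin n)) : ℕ :=
  (vs.filter (fun x => x ∉ Y)).length

/-- On every path there is a set `Y` of at most `y` variables such that at most `D` steps of the path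
resolve on a variable outside `Y`. -/
def Sparse {n : ℕ} {F : CNF n} {w : ℝ} (R : Refutation F w) (D y : ℝ) : Prop :=
  ∀ vs i, IsPath R vs i → ∃ Y : Finset (Fin n), (Y.card : ℝ) ≤ y ∧ (outside Y vs : ℝ) ≤ D

/-- The formula `F` is unsatisfiable, and its refutations `R` (from clauses which follow from at most
`w` clauses of `F`) with `Sparse R D y` have at least `s` clauses. -/
def Hard {n : ℕ} (F : CNF n) (w D y s : ℝ) : Prop :=
  (¬ ∃ a, Sat F a) ∧ ∀ R : Refutation F w, Sparse R D y → s ≤ R.size

end Pool.Agent.H99.LE
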