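import Pool.Agent.H99.LE.Res
import Pool.Agent.H13.LD.Rd
import Pool.Agent.H13.LD.Ph
import Pool.Agent.H13.LD.Lf

/-!
# The walk through the refutation ends in a wide clause

As `Pool.Agent.H13.LD.Wk`, with an exceptional set of variables.
-/

namespace Pool.Agent.H99.LE

open Finset Pool.Agent.H13.LD

/-- The conclusion of `walk` for a wide falsified clause. -/
theorem Wk_concl {n : ℕ} {F : CNF n} {t μ : ℕ} {w : ℝ} {a : Fin n → Bool}
    {Qs : Finset (Finset (Fin n))} {A J : Finset (Fin n)} {b : Fin n → Bool}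
    {T : Finset (Clause n)} (hI : Inv F a t Qs A J b T) (R : Refutation F w) (i : Fin R.size)
    (hl : ∀ l ∈ R.line i, l.1 ∈ A ∧ b l.1 ≠ l.2) (hμ : μ ≤ (R.line i).card) :
    ∃ i, μ ≤ (R.line i).card ∧ ((R.line i).filter fun l => a l.1 = l.2).card ≤ t ∧
      ∀ l ∈ R.line i, ∀ l' ∈ R.line i, l.1 = l'.1 → l = l' := by
  have key : ∀ l ∈ R.line i, ∀ l' ∈ R.line i, l.1 = l'.1 → l = l' := by
    intro l h1 l' h2 h3
    refine Prod.ext h3 ?_
    have h4 := (hl l h1).2
    have h5 := (hl l' h2).2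
    rw [← h3] at h5
    cases h6 : b l.1 <;> cases h7 : l.2 <;> cases h8 : l'.2 <;> simp_all
  refine ⟨i, hμ, ?_, key⟩
  refine le_trans ?_ hI.small.le
  refine Finset.card_le_card_of_injOn (fun l => l.1) ?_ ?_
  · intro l h1
    have h2 := Finset.mem_filter.1 (Finset.mem_coe.1 h1)
    by_contra h3
    have h4 := hI.agree l.1 (hl l h2.1).1 (fun h => h3 (Finset.mem_coe.2 h))
    exact (hl l h2.1).2 (h4.trans h2.2)
  · intro l h1 l' h2 h3
    exact key l (Finset.mem_filter.1 (Finset.mem_coe.1 h1)).1 l'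
      (Finset.mem_filter.1 (Finset.mem_coe.1 h2)).1 h3

theorem outside_cons {n : ℕ} (Y : Finset (Fin n)) (x : Fin n) (vs : List (Fin n)) :
    outside Y (x :: vs) = outside Y vs + if x ∈ Y then 0 else 1 := by
  unfold outside
  by_cases h : x ∈ Y
  · simp [h]
  · simp [h]

/-- One more step: the set of the variables read in the present phase grows. -/
theorem count_step {n : ℕ} {S : Finset (Fin n)} {x : Fin n} {vs : List (Fin n)} {y base : ℕ}
    (h : ∀ Y : Finset (Fin n), Y.card ≤ y → base + (S \ Y).card ≤ outside Y vs) :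
    ∀ Y : Finset (Fin n), Y.card ≤ y → base + (insert x S \ Y).card ≤ outside Y (x :: vs) := by
  intro Y hY
  rw [outside_cons]
  have h1 := h Y hY
  by_cases hx : x ∈ Y
  · rw [Finset.insert_sdiff_of_mem _ hx]
    simp only [hx, if_true, Nat.add_zero]
    exact h1
  · rw [Finset.insert_sdiff_of_notMem _ hx]
    have h2 := Finset.card_insert_le x (S \ Y)
    simp only [hx, if_false]
    omega

theorem count_step' {n : ℕ} {S : Finset (Fin n)} {x : Fin n} {vs : List (Fin n)} {y base : ℕ}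
    (h : ∀ Y : Finset (Fin n), Y.card ≤ y → base + (S \ Y).card ≤ outside Y vs) :
    ∀ Y : Finset (Fin n), Y.card ≤ y → base + (S \ Y).card ≤ outside Y (x :: vs) := by
  intro Y hY
  rw [outside_cons]
  exact (h Y hY).trans (Nat.le_add_right _ _)

theorem Wk_claim {n : ℕ} {F : CNF n} {P q₀ t k μ y D : ℕ} {w : ℝ} {a : Fin n → Bool}
    (hTyp : Typ F P q₀ t a) (hk : ∀ C ∈ F, C.card ≤ k) (hw : ⌊w⌋₊ * k ≤ t)
    (hμ : μ ≤ q₀) (R : Refutation F w)
    (hR : ∀ vs i, IsPath R vs i → ∃ Y : Finset (Fin n), Y.card ≤ y ∧ outside Y vs ≤ D)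
    (hD : D < (q₀ - y) + (P - 1) * (q₀ - μ - y)) (h : ℕ) :
    ∀ (i : Fin R.size) (vs : List (Fin n)) (Qs : Finset (Finset (Fin n)))
      (A J : Finset (Fin n)) (b : Fin n → Bool)
      (T : Finset (Clause n)) (p : ℕ) (S : Finset (Fin n)) (u base : ℕ), i.val = h →
      IsPath R vs i → Inv F a t Qs A J b T →
      (∀ l ∈ R.line i, l.1 ∈ A ∧ b l.1 ≠ l.2) → (∀ Q ∈ Qs, Q.card ≤ q₀) → (A \ J).card ≤ q₀ →
      Qs.card ≤ p → p + 1 ≤ P → S ⊆ A → (A \ J).card ≤ u + S.card →
      (q₀ - y) + (P - 1) * (q₀ - μ - y) ≤ base + (q₀ - u - y) + (P - 1 - p) * (q₀ - μ - y) →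
      (∀ Y : Finset (Fin n), Y.card ≤ y → base + (S \ Y).card ≤ outside Y vs) →
      ∃ i, μ ≤ (R.line i).card ∧ ((R.line i).filter fun l => a l.1 = l.2).card ≤ t ∧
        ∀ l ∈ R.line i, ∀ l' ∈ R.line i, l.1 = l'.1 → l = l' := by
  induction h using Nat.strong_induction_on with
  | _ h ih =>
  have claim' : ∀ (i : Fin R.size) (vs : List (Fin n)) (Qs : Finset (Finset (Fin n)))
      (A J : Finset (Fin n)) (b : Fin n → Bool)
      (T : Finset (Clause n)) (p : ℕ) (S : Finset (Fin n)) (u base : ℕ), i.val = h →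
      IsPath R vs i → Inv F a t Qs A J b T →
      (∀ l ∈ R.line i, l.1 ∈ A ∧ b l.1 ≠ l.2) → (∀ Q ∈ Qs, Q.card ≤ q₀) → (A \ J).card < q₀ →
      Qs.card ≤ p → p + 1 ≤ P → S ⊆ A → (A \ J).card ≤ u + S.card →
      (q₀ - y) + (P - 1) * (q₀ - μ - y) ≤ base + (q₀ - u - y) + (P - 1 - p) * (q₀ - μ - y) →
      (∀ Y : Finset (Fin n), Y.card ≤ y → base + (S \ Y).card ≤ outside Y vs) →
      ∃ i, μ ≤ (R.line i).card ∧ ((R.line i).filter fun l => a l.1 = l.2).card ≤ t ∧
        ∀ l ∈ R.line i, ∀ l' ∈ R.line i, l.1 = l'.1 → l = l' := by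
    intro i vs Qs A J b T p S u base hi hvs hI hl hQ hq hQp hpP hSA hSu hbase hcount
    rcases hnode : R.node i with _ | ⟨x, c⟩
    · exact (leaf_false hI hk hw hl (R.leaf i hnode)).elim
    · have hin := R.inner i x c hnode
      by_cases hx : x ∈ A
      · obtain ⟨h1, h2⟩ := hin (b x)
        refine ih (c (b x)).val (hi ▸ h2) (c (b x)) (x :: vs) Qs A J b T p S u base rfl
          (IsPath.step (b x) hvs hnode) hI ?_ hQ hq.le hQp hpP hSA hSu hbase (count_step' hcount)
        intro l hl'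
        rcases Finset.mem_insert.1 (h1 hl') with h3 | h3
        · rw [h3]
          refine ⟨hx, ?_⟩
          simp
        · exact hl l h3
      · obtain ⟨A₂, J₂, b₂, T₂, hI₂, hA₂, hx₂, hb₂, hc₂⟩ :=
          read_state hTyp hI (by omega) hQ (by omega) hx
        obtain ⟨h1, h2⟩ := hin (b₂ x)
        have hxS : x ∉ S := fun hh => hx (hSA hh)
        refine ih (c (b₂ x)).val (hi ▸ h2) (c (b₂ x)) (x :: vs) Qs A₂ J₂ b₂ T₂ p (insert x S) u base rfl
          (IsPath.step (b₂ x) hvs hnode) hI₂ ?_ hQ (by omega) hQp hpP ?_ ?_ hbase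
          (count_step hcount)
        · intro l hl'
          rcases Finset.mem_insert.1 (h1 hl') with h3 | h3
          · rw [h3]
            refine ⟨hx₂, ?_⟩
            simp
          · refine ⟨hA₂ (hl l h3).1, ?_⟩
            rw [hb₂ l.1 (hl l h3).1]
            exact (hl l h3).2
        · exact Finset.insert_subset hx₂ (hSA.trans hA₂)
        · rw [Finset.card_insert_of_notMem hxS]
          omega
  intro i vs Qs A J b T p S u base hi hvs hI hl hQ hq hQp hpP hSA hSu hbase hcount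
  rcases hq.lt_or_eq with hq' | hq'
  · exact claim' i vs Qs A J b T p S u base hi hvs hI hl hQ hq' hQp hpP hSA hSu hbase hcount
  · by_cases hm : μ ≤ (R.line i).card
    · exact Wk_concl hI R i hl hm
    · have hM : vars (R.line i) ⊆ A := by
        intro z hz
        obtain ⟨l, h1, h2⟩ := Finset.mem_image.1 hz
        rw [← h2]
        exact (hl l h1).1
      have hMc : (vars (R.line i)).card ≤ (R.line i).card := Finset.card_image_le
      have hcount' : ∀ Y : Finset (Fin n), Y.card ≤ y →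
          base + (q₀ - u - y) ≤ outside Y vs := by
        intro Y hY
        have e1 := hcount Y hY
        have e2 := Finset.le_card_sdiff Y S
        omega
      have hP1 : 1 ≤ P - 1 - p := by
        by_contra h0
        have h00 : P - 1 - p = 0 := by omega
        rw [h00, Nat.zero_mul] at hbase
        obtain ⟨Y, hY1, hY2⟩ := hR vs i hvs
        have e1 := hcount' Y hY1
        omega
      have hsplit : (P - 1 - p) * (q₀ - μ - y) =
          (q₀ - μ - y) + (P - 1 - (p + 1)) * (q₀ - μ - y) := by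
        have : P - 1 - p = (P - 1 - (p + 1)) + 1 := by omega
        rw [this, Nat.add_mul, Nat.one_mul, Nat.add_comm]
      obtain ⟨A₂, J₂, b₂, T₂, hI₂, hA₂, hb₂, hc₂⟩ :=
        phase_state hTyp hI (by omega) hQ hq hM
      refine claim' i vs (insert (A \ J) Qs) A₂ J₂ b₂ T₂ (p + 1) ∅ μ (base + (q₀ - u - y)) hi hvs hI₂
        ?_ ?_ (by omega) ?_ (by omega) (Finset.empty_subset _) (by omega) ?_ ?_
      · intro l h1
        have h2 : l.1 ∈ vars (R.line i) := Finset.mem_image.2 ⟨l, h1, rfl⟩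
        refine ⟨hA₂ h2, ?_⟩
        rw [hb₂ l.1 h2]
        exact (hl l h1).2
      · intro Q hQ'
        rcases Finset.mem_insert.1 hQ' with h1 | h1
        · rw [h1]
          exact hq
        · exact hQ Q h1
      · exact (Finset.card_insert_le _ _).trans (Nat.succ_le_succ hQp)
      · rw [hsplit] at hbase
        omega
      · intro Y hY
        simp only [Finset.empty_sdiff, Finset.card_empty, Nat.add_zero]
        exact hcount' Y hY

theorem walk {n : ℕ} {F : CNF n} {P q₀ t k μ y D : ℕ} {w : ℝ} {a : Fin n → Bool}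
    (hTyp : Typ F P q₀ t a)
    (hS : Spread F (2 * t)) (hk : ∀ C ∈ F, C.card ≤ k) (hw : ⌊w⌋₊ * k ≤ t) (ht : 1 ≤ t)
    (hP : 1 ≤ P) (hμ : μ ≤ q₀) (R : Refutation F w)
    (hR : ∀ vs i, IsPath R vs i → ∃ Y : Finset (Fin n), Y.card ≤ y ∧ outside Y vs ≤ D)
    (hD : D < (q₀ - y) + (P - 1) * (q₀ - μ - y)) :
    ∃ i, μ ≤ (R.line i).card ∧ ((R.line i).filter fun l => a l.1 = l.2).card ≤ t ∧
      ∀ l ∈ R.line i, ∀ l' ∈ R.line i, l.1 = l'.1 → l = l' := by
  have hI : Inv F a t ∅ ∅ ∅ a ∅ := by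
    refine ⟨Finset.Subset.refl _, fun x hx => absurd hx (Finset.notMem_empty x),
      Finset.empty_subset _, le_rfl, fun C hC => absurd hC (Finset.notMem_empty C),
      fun C hC => absurd hC (Finset.notMem_empty C), ?_, ?_⟩
    · rw [Finset.card_empty]
      exact ht
    · intro I hIF hne _ hc
      unfold nb at hc ⊢
      rw [Finset.sdiff_empty] at hc ⊢
      rw [Finset.card_empty, Nat.zero_add] at hc
      exact hS I hIF hne hc
  refine Wk_claim hTyp hk hw hμ R hR hD R.root.val R.root [] ∅ ∅ ∅ a ∅ 0 ∅ 0 0 rfl IsPath.start hI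
    ?_ ?_ ?_ ?_ hP (Finset.empty_subset _) ?_ ?_ ?_
  · intro l hl
    rw [R.root_line] at hl
    exact absurd hl (Finset.notMem_empty l)
  · intro Q hQ
    exact absurd hQ (Finset.notMem_empty Q)
  · simp
  · simp
  · simp
  · simp
  · intro Y _
    simp

end Pool.Agent.H99.LE
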